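import Mathlib

set_option autoImplicit false

/-!
# Chains modulo two on sets of indices
-/

namespace Pool.Agent.Q226.ADDM

variable {X : Type} [Fintype X] [DecidableEq X]

/-- the boundary of a chain -/
def bd (z : Finset X → ZMod 2) (K : Finset X) : ZMod 2 := ∑ j ∈ Kᶜ, z (insert j K)

/-- the cone with apex `i` -/
def cone (i : X) (w : Finset X → ZMod 2) (K : Finset X) : ZMod 2 :=
  if i ∈ K then w (K.erase i) else 0

theorem add_self2 (a : ZMod 2) : a + a = 0 := CharTwo.add_self_eq_zero a

theorem bd_bd (z : Finset X → ZMod 2) (R : Finset X) : bd (bd z) R = 0 := by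
  unfold bd
  rw [Finset.sum_sigma']
  refine Finset.sum_involution (fun p _ => ⟨p.2, p.1⟩) ?_ ?_ ?_ ?_
  · rintro ⟨j, k⟩ _
    simp only []
    rw [Finset.insert_comm k j]
    exact add_self2 _
  · rintro ⟨j, k⟩ hjk _ heq
    rw [Finset.mem_sigma, Finset.mem_compl, Finset.mem_compl] at hjk
    simp only [Sigma.mk.injEq, heq_eq_eq] at heq
    apply hjk.2
    rw [heq.1]
    exact Finset.mem_insert_self _ _
  · rintro ⟨j, k⟩ hjk
    rw [Finset.mem_sigma, Finset.mem_compl, Finset.mem_compl] at hjk ⊢
    simp only [Finset.mem_insert, not_or] at hjk ⊢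
    exact ⟨hjk.2.2, Ne.symm hjk.2.1, hjk.1⟩
  · rintro ⟨j, k⟩ _
    rfl

theorem bd_eq_zero_of_mem {i : X} {z : Finset X → ZMod 2} (hz : ∀ K, i ∈ K → z K = 0)
    {K : Finset X} (hK : i ∈ K) : bd z K = 0 :=
  Finset.sum_eq_zero fun _ _ => hz _ (Finset.mem_insert_of_mem hK)

theorem bd_cone {i : X} {w : Finset X → ZMod 2} (hw : ∀ K, i ∈ K → w K = 0) (K : Finset X) :
    bd (cone i w) K = if i ∈ K then bd w (K.erase i) else w K := by
  by_cases hi : i ∈ K
  · rw [if_pos hi]
    unfold bd
    have h1 : (K.erase i)ᶜ = insert i Kᶜ := by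
      ext j
      simp only [Finset.mem_compl, Finset.mem_erase, Finset.mem_insert, not_and, not_not]
      constructor
      · intro h
        by_cases hj : j = i
        · exact Or.inl hj
        · exact Or.inr fun hjK => hj (by_contra fun hc => (h hc) hjK)
      · rintro (h | h) hne
        · exact absurd h hne
        · exact h
    rw [h1, Finset.sum_insert (by simpa using hi), Finset.insert_erase hi, hw K hi, zero_add]
    refine Finset.sum_congr rfl fun j hj => ?_
    rw [Finset.mem_compl] at hj
    have hij : j ≠ i := fun h => hj (h ▸ hi)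
    unfold cone
    rw [if_pos (Finset.mem_insert_of_mem hi), Finset.erase_insert_of_ne hij]
  · rw [if_neg hi]
    unfold bd
    rw [Finset.sum_eq_single i]
    · unfold cone
      rw [if_pos (Finset.mem_insert_self _ _), Finset.erase_insert hi]
    · intro j _ hji
      unfold cone
      rw [if_neg]
      rw [Finset.mem_insert, not_or]
      exact ⟨Ne.symm hji, hi⟩
    · intro h
      exact absurd (Finset.mem_compl.2 hi) h

/-- evaluation of the cone over a boundary -/
theorem sum_cone_bd {i : X} {z φ : Finset X → ZMod 2} (hz : ∀ K, i ∈ K → z K = 0) :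
    ∑ K, cone i (bd z) K * φ K = ∑ L, z L * ∑ j ∈ L, φ (insert i (L.erase j)) := by
  have h1 : ∑ K, cone i (bd z) K * φ K =
      ∑ p ∈ (Finset.univ : Finset (Finset X × X)).filter (fun p => i ∈ p.1 ∧ p.2 ∉ p.1),
        z (insert p.2 (p.1.erase i)) * φ p.1 := by
    rw [Finset.sum_filter, Fintype.sum_prod_type]
    refine Finset.sum_congr rfl fun K _ => ?_
    unfold cone
    by_cases hi : i ∈ K
    · rw [if_pos hi]
      unfold bd
      rw [Finset.sum_mul]
      have h1 : (K.erase i)ᶜ = insert i Kᶜ := by
        ext j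
        simp only [Finset.mem_compl, Finset.mem_erase, Finset.mem_insert, not_and, not_not]
        constructor
        · intro h
          by_cases hj : j = i
          · exact Or.inl hj
          · exact Or.inr fun hjK => hj (by_contra fun hc => (h hc) hjK)
        · rintro (h | h) hne
          · exact absurd h hne
          · exact h
      rw [h1, Finset.sum_insert (by simpa using hi), Finset.insert_erase hi, hz K hi, zero_mul,
        zero_add, ← Finset.sum_filter]
      refine Finset.sum_congr ?_ fun j _ => rfl
      ext j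
      simp [hi]
    · rw [if_neg hi, zero_mul]
      symm
      refine Finset.sum_eq_zero fun j _ => ?_
      rw [if_neg fun h => hi h.1]
  have h2 : ∑ L, z L * ∑ j ∈ L, φ (insert i (L.erase j)) =
      ∑ p ∈ (Finset.univ : Finset (Finset X × X)).filter (fun p => i ∉ p.1 ∧ p.2 ∈ p.1),
        z p.1 * φ (insert i (p.1.erase p.2)) := by
    rw [Finset.sum_filter, Fintype.sum_prod_type]
    refine Finset.sum_congr rfl fun L _ => ?_
    by_cases hi : i ∈ L
    · rw [hz L hi, zero_mul]
      symm
      refine Finset.sum_eq_zero fun j _ => ?_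
      rw [if_neg fun h => h.1 hi]
    · rw [Finset.mul_sum, ← Finset.sum_filter]
      refine Finset.sum_congr ?_ fun j _ => rfl
      ext j
      simp [hi]
  rw [h1, h2]
  refine Finset.sum_nbij' (fun p => (insert p.2 (p.1.erase i), p.2))
    (fun q => (insert i (q.1.erase q.2), q.2)) ?_ ?_ ?_ ?_ ?_
  · rintro ⟨K, j⟩ h
    simp only [Finset.mem_filter, Finset.mem_univ, true_and] at h ⊢
    refine ⟨?_, Finset.mem_insert_self _ _⟩
    rw [Finset.mem_insert, not_or]
    exact ⟨fun hij => h.2 (hij ▸ h.1), Finset.notMem_erase _ _⟩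
  · rintro ⟨L, j⟩ h
    simp only [Finset.mem_filter, Finset.mem_univ, true_and] at h ⊢
    refine ⟨Finset.mem_insert_self _ _, ?_⟩
    rw [Finset.mem_insert, not_or]
    exact ⟨fun hij => h.1 (hij ▸ h.2), Finset.notMem_erase _ _⟩
  · rintro ⟨K, j⟩ h
    simp only [Finset.mem_filter, Finset.mem_univ, true_and] at h
    simp only [Prod.mk.injEq, and_true]
    rw [Finset.erase_insert (fun hj => h.2 (Finset.mem_of_mem_erase hj)), Finset.insert_erase h.1]
  · rintro ⟨L, j⟩ h
    simp only [Finset.mem_filter, Finset.mem_univ, true_and] at h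
    simp only [Prod.mk.injEq, and_true]
    rw [Finset.erase_insert (fun hj => h.1 (Finset.mem_of_mem_erase hj)), Finset.insert_erase h.2]
  · rintro ⟨K, j⟩ h
    simp only [Finset.mem_filter, Finset.mem_univ, true_and] at h
    simp only []
    rw [Finset.erase_insert (fun hj => h.2 (Finset.mem_of_mem_erase hj)), Finset.insert_erase h.1]

/-- **The step of the method on the level of chains.** -/
theorem step_chain (i : X) (z keep : Finset X → ZMod 2) (hz : ∀ K, bd z K = 0)
    (hzi : ∀ K, i ∈ K → z K = 0) (hkeep : ∀ K, keep K = z K ∨ keep K = 0) :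
    (∀ K, bd (fun K => keep K + cone i (bd keep) K) K = 0) ∧
    ∀ φ : Finset X → ZMod 2,
      (∀ L, keep L ≠ z L → ∑ l ∈ insert i L, φ ((insert i L).erase l) = 0) →
      ∑ K, (keep K + cone i (bd keep) K) * φ K = ∑ K, z K * φ K := by
  have hki : ∀ K, i ∈ K → keep K = 0 := by
    intro K hK
    rcases hkeep K with h | h
    · rw [h, hzi K hK]
    · exact h
  have hadd : ∀ (u v : Finset X → ZMod 2) (K : Finset X),
      bd (fun K => u K + v K) K = bd u K + bd v K := by
    intro u v K
    unfold bd
    rw [Finset.sum_add_distrib]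
  constructor
  · intro K
    rw [hadd, bd_cone (fun K hK => bd_eq_zero_of_mem hki hK)]
    by_cases hi : i ∈ K
    · rw [if_pos hi, bd_bd, bd_eq_zero_of_mem hki hi, add_zero]
    · rw [if_neg hi]
      exact add_self2 _
  · intro φ hφ
    -- the dropped part
    set drop : Finset X → ZMod 2 := fun K => z K + keep K with hdrop
    have hdi : ∀ K, i ∈ K → drop K = 0 := by
      intro K hK
      rw [hdrop]
      simp only [hki K hK, hzi K hK, add_zero]
    have hbd : bd keep = bd drop := by
      ext K
      rw [hdrop, hadd, hz, zero_add]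
    have h1 : ∑ K, (keep K + cone i (bd keep) K) * φ K =
        ∑ K, keep K * φ K + ∑ L, drop L * ∑ j ∈ L, φ (insert i (L.erase j)) := by
      rw [← sum_cone_bd hdi, ← Finset.sum_add_distrib, ← hbd]
      refine Finset.sum_congr rfl fun K _ => ?_
      ring
    have h2 : ∑ K, keep K * φ K = ∑ K, z K * φ K + ∑ L, drop L * φ L := by
      rw [← Finset.sum_add_distrib]
      refine Finset.sum_congr rfl fun K _ => ?_
      rw [hdrop]
      simp only []
      have := add_self2 (z K * φ K)
      linear_combination (-1 : ZMod 2) * this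
    rw [h1, h2, add_assoc, ← Finset.sum_add_distrib]
    have h3 : ∑ L, (drop L * φ L + drop L * ∑ j ∈ L, φ (insert i (L.erase j))) = 0 := by
      refine Finset.sum_eq_zero fun L _ => ?_
      by_cases hL : keep L = z L
      · have : drop L = 0 := by
          rw [hdrop]
          simp only [hL]
          exact add_self2 _
        rw [this, zero_mul, zero_mul, add_zero]
      · have hiL : i ∉ L := fun h => hL (by rw [hki L h, hzi L h])
        have h4 := hφ L hL
        rw [Finset.sum_insert hiL, Finset.erase_insert hiL] at h4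
        have h5 : ∑ l ∈ L, φ ((insert i L).erase l) = ∑ j ∈ L, φ (insert i (L.erase j)) := by
          refine Finset.sum_congr rfl fun j hj => ?_
          rw [Finset.erase_insert_of_ne]
          rintro rfl
          exact hiL hj
        rw [h5] at h4
        rw [← mul_add, h4, mul_zero]
    rw [h3, add_zero]

end Pool.Agent.Q226.ADDM
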