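import Mathlib

set_option autoImplicit false

/-!
# Counting the facets of a simplex of normals which are hit by a generic direction
-/

namespace Pool.Agent.Q226.ADDM

open Matrix

variable {m d : ℕ}

/-- `h` is a nonnegative combination of the vectors `A j`, `j ∈ K`. -/
def InCone (A : Fin m → Fin d → ℝ) (h : Fin d → ℝ) (K : Finset (Fin m)) : Prop :=
  ∃ l : Fin m → ℝ, (∀ j, 0 ≤ l j) ∧ (∀ j, j ∉ K → l j = 0) ∧ ∑ j, l j • A j = h

/-- `h` is not a combination of fewer than `d` of the vectors. -/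
def Gen (A : Fin m → Fin d → ℝ) (h : Fin d → ℝ) : Prop :=
  ∀ K : Finset (Fin m), K.card < d → h ∉ Submodule.span ℝ (A '' (K : Set (Fin m)))

theorem exists_gen (A : Fin m → Fin d → ℝ) {U : Set (Fin d → ℝ)} (hU : IsOpen U)
    (hne : U.Nonempty) : ∃ h ∈ U, Gen A h := by
  by_contra hcon
  push Not at hcon
  have hsub : U ⊆ ⋃ K : {K : Finset (Fin m) // K.card < d},
      (Submodule.span ℝ (A '' (K.1 : Set (Fin m))) : Set (Fin d → ℝ)) := by
    intro h hh
    have := hcon h hh
    unfold Gen at this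
    push Not at this
    obtain ⟨K, hK, hK2⟩ := this
    exact Set.mem_iUnion.2 ⟨⟨K, hK⟩, hK2⟩
  have hnull : MeasureTheory.volume (⋃ K : {K : Finset (Fin m) // K.card < d},
      (Submodule.span ℝ (A '' (K.1 : Set (Fin m))) : Set (Fin d → ℝ))) = 0 := by
    rw [MeasureTheory.measure_iUnion_null_iff]
    rintro ⟨K, hK⟩
    apply MeasureTheory.Measure.addHaar_submodule
    intro htop
    have h1 : Module.finrank ℝ (Submodule.span ℝ (A '' (K : Set (Fin m)))) ≤ K.card := by
      classical
      rw [← Finset.coe_image]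
      exact (finrank_span_finset_le_card _).trans Finset.card_image_le
    rw [htop, finrank_top, Module.finrank_fin_fun] at h1
    omega
  have h2 := MeasureTheory.measure_mono_null hsub hnull
  exact (hU.measure_pos MeasureTheory.volume hne).ne' h2

/-- a representation of a generic vector has at least `d` nonzero coefficients -/
theorem Gen.card_le {A : Fin m → Fin d → ℝ} {h : Fin d → ℝ} (hg : Gen A h) {l : Fin m → ℝ}
    (hl : ∑ j, l j • A j = h) {K : Finset (Fin m)} (hK : ∀ j, j ∉ K → l j = 0) : d ≤ K.card := by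
  by_contra hcon
  push Not at hcon
  refine hg K hcon ?_
  rw [← hl]
  refine Submodule.sum_mem _ fun j _ => ?_
  by_cases hj : j ∈ K
  · exact Submodule.smul_mem _ _ (Submodule.subset_span ⟨j, hj, rfl⟩)
  · rw [hK j hj, zero_smul]
    exact Submodule.zero_mem _

theorem Gen.ne_zero {A : Fin m → Fin d → ℝ} {h : Fin d → ℝ} (hg : Gen A h) {l : Fin m → ℝ}
    (hl : ∑ j, l j • A j = h) {K : Finset (Fin m)} (hc : K.card = d)
    (hK : ∀ j, j ∉ K → l j = 0) {j : Fin m} (hj : j ∈ K) : l j ≠ 0 := by
  intro h0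
  have h1 : d ≤ (K.erase j).card := by
    refine hg.card_le hl fun i hi => ?_
    by_cases hij : i = j
    · rw [hij, h0]
    · exact hK i fun h => hi (Finset.mem_erase.2 ⟨hij, h⟩)
  have h2 := Finset.card_pos.2 ⟨j, hj⟩
  rw [Finset.card_erase_of_mem hj] at h1
  omega

/-- the vectors with indices in `K` are linearly independent -/
theorem Gen.indep {A : Fin m → Fin d → ℝ} {h : Fin d → ℝ} (hg : Gen A h) {l : Fin m → ℝ}
    (hl : ∑ j, l j • A j = h) {K : Finset (Fin m)} (hc : K.card = d)
    (hK : ∀ j, j ∉ K → l j = 0) {g : Fin m → ℝ} (hgK : ∀ j, j ∉ K → g j = 0)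
    (hg0 : ∑ j, g j • A j = 0) : ∀ j, g j = 0 := by
  intro j
  by_contra hj
  have hjK : j ∈ K := by
    by_contra h
    exact hj (hgK j h)
  have h1 : ∑ i, (l i - l j / g j * g i) • A i = h := by
    have : ∀ i, (l i - l j / g j * g i) • A i = l i • A i - (l j / g j) • (g i • A i) := by
      intro i
      rw [sub_smul, mul_smul]
    rw [Finset.sum_congr rfl fun i _ => this i, Finset.sum_sub_distrib, ← Finset.smul_sum, hg0,
      smul_zero, sub_zero, hl]
  refine hg.ne_zero h1 hc (fun i hi => ?_) hjK ?_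
  · simp only [hK i hi, hgK i hi, mul_zero, sub_zero]
  · field_simp
    ring

/-- a linear relation between `d + 1` vectors -/
theorem exists_rel (A : Fin m → Fin d → ℝ) {L : Finset (Fin m)} (hL : L.card = d + 1) :
    ∃ κ : Fin m → ℝ, (∀ j, j ∉ L → κ j = 0) ∧ (∑ j, κ j • A j = 0) ∧ ∃ j ∈ L, κ j ≠ 0 := by
  classical
  have hcard : Module.finrank ℝ (Fin d → ℝ) < Fintype.card L := by
    rw [Module.finrank_fin_fun, Fintype.card_coe, hL]
    omega
  have hnot : ¬ LinearIndependent ℝ (fun j : L => A j) := by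
    intro h
    have := h.fintype_card_le_finrank
    omega
  rw [Fintype.not_linearIndependent_iff] at hnot
  obtain ⟨g, hg, ⟨j, hj⟩, hgj⟩ := hnot
  refine ⟨fun i => if h : i ∈ L then g ⟨i, h⟩ else 0, fun i hi => dif_neg hi, ?_, j, hj, ?_⟩
  · rw [← Finset.sum_subset (Finset.subset_univ L)]
    · rw [← Finset.sum_coe_sort L]
      rw [← hg]
      refine Finset.sum_congr rfl fun i _ => ?_
      simp only [dif_pos i.2]
    · intro i _ hi
      simp only [dif_neg hi, zero_smul]
  · simp only [dif_pos hj]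
    exact hgj

/-- the facets of the simplex `L` which are hit -/
noncomputable def Fc (A : Fin m → Fin d → ℝ) (h : Fin d → ℝ) (L : Finset (Fin m)) :
    Finset (Fin m) :=
  @Finset.filter _ (fun l => InCone A h (L.erase l)) (Classical.decPred _) L

theorem mem_Fc {A : Fin m → Fin d → ℝ} {h : Fin d → ℝ} {L : Finset (Fin m)} {l : Fin m} :
    l ∈ Fc A h L ↔ l ∈ L ∧ InCone A h (L.erase l) :=
  @Finset.mem_filter _ _ (Classical.decPred _) _ _

/-- If one facet is hit then all representations are obtained by adding multiples of the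
relation. -/
theorem line {A : Fin m → Fin d → ℝ} {h : Fin d → ℝ} (hg : Gen A h) {L : Finset (Fin m)}
    (hL : L.card = d + 1) {κ : Fin m → ℝ} (hκL : ∀ j, j ∉ L → κ j = 0)
    (hκ : ∑ j, κ j • A j = 0) (hκ0 : ∃ j ∈ L, κ j ≠ 0) {l : Fin m} (hl : l ∈ L)
    {lam : Fin m → ℝ} (hlam : ∀ j, j ∉ L.erase l → lam j = 0) (hs : ∑ j, lam j • A j = h) :
    κ l ≠ 0 ∧ ∀ ν : Fin m → ℝ, (∀ j, j ∉ L → ν j = 0) → ∑ j, ν j • A j = h →
      ∀ j, ν j = lam j + ν l / κ l * κ j := by
  have hcard : (L.erase l).card = d := by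
    rw [Finset.card_erase_of_mem hl, hL]; rfl
  have hκl : κ l ≠ 0 := by
    intro h0
    obtain ⟨j, hj, hj0⟩ := hκ0
    refine hj0 (hg.indep hs hcard hlam (g := κ) (fun i hi => ?_) hκ j)
    by_cases hil : i = l
    · rw [hil, h0]
    · exact hκL i fun h => hi (Finset.mem_erase.2 ⟨hil, h⟩)
  refine ⟨hκl, fun ν hν hνs j => ?_⟩
  have hll : lam l = 0 := hlam l (Finset.notMem_erase _ _)
  have h1 := hg.indep hs hcard hlam (g := fun i => ν i - lam i - ν l / κ l * κ i) (fun i hi => ?_) ?_ j
  · linarith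
  · by_cases hil : i = l
    · rw [hil, hll]
      field_simp
      ring
    · have : i ∉ L := fun h => hi (Finset.mem_erase.2 ⟨hil, h⟩)
      simp only [hν i this, hκL i this, hlam i hi, mul_zero, sub_zero]
  · have : ∀ i, (ν i - lam i - ν l / κ l * κ i) • A i =
        ν i • A i - lam i • A i - (ν l / κ l) • (κ i • A i) := by
      intro i
      rw [sub_smul, sub_smul, mul_smul]
    rw [Finset.sum_congr rfl fun i _ => this i, Finset.sum_sub_distrib, Finset.sum_sub_distrib,
      ← Finset.smul_sum, hκ, smul_zero, hνs, hs]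
    simp

/-- **A generic direction hits an even number of facets of a simplex of vectors in an open half
space.** -/
theorem even_Fc {A : Fin m → Fin d → ℝ} {h : Fin d → ℝ} (hg : Gen A h) {L : Finset (Fin m)}
    (hL : L.card = d + 1) {y : Fin d → ℝ} (hy : ∀ l ∈ L, 0 < A l ⬝ᵥ y) :
    Even (Fc A h L).card := by
  classical
  obtain ⟨κ', hκL', hκ', hκ0'⟩ := exists_rel A hL
  rcases (Fc A h L).eq_empty_or_nonempty with he | ⟨l, hl⟩
  · rw [he]; simp
  obtain ⟨hlL, lam, hlam0, hlam, hs⟩ := mem_Fc.1 hl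
  obtain ⟨hκl', _⟩ := line hg hL hκL' hκ' hκ0' hlL hlam hs
  -- scale the relation
  obtain ⟨κ, hκL, hκ, hκ0, hκl⟩ : ∃ κ : Fin m → ℝ, (∀ j, j ∉ L → κ j = 0) ∧
      (∑ j, κ j • A j = 0) ∧ (∃ j ∈ L, κ j ≠ 0) ∧ κ l = 1 := by
    refine ⟨fun j => κ' j / κ' l, fun j hj => by simp only [hκL' j hj, zero_div], ?_,
      ⟨l, hlL, by simp only [div_self hκl']; norm_num⟩, div_self hκl'⟩
    have : ∀ j, (κ' j / κ' l) • A j = (1 / κ' l) • (κ' j • A j) := by
      intro j
      rw [← mul_smul]
      congr 1
      ring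
    rw [Finset.sum_congr rfl fun j _ => this j, ← Finset.smul_sum, hκ', smul_zero]
  obtain ⟨_, hline⟩ := line hg hL hκL hκ hκ0 hlL hlam hs
  simp only [hκl, div_one] at hline
  have hcard : (L.erase l).card = d := by
    rw [Finset.card_erase_of_mem hlL, hL]; rfl
  have hll : lam l = 0 := hlam l (Finset.notMem_erase _ _)
  have hpos : ∀ j ∈ L.erase l, 0 < lam j := fun j hj =>
    lt_of_le_of_ne (hlam0 j) (Ne.symm (hg.ne_zero hs hcard hlam hj))
  -- a negative coefficient
  have hneg : ((L.erase l).filter (fun j => κ j < 0)).Nonempty := by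
    by_contra hcon
    rw [Finset.not_nonempty_iff_eq_empty, Finset.filter_eq_empty_iff] at hcon
    have h1 : ∑ j, κ j * (A j ⬝ᵥ y) = 0 := by
      have h2 : (∑ j, κ j • A j) ⬝ᵥ y = ∑ j, κ j * (A j ⬝ᵥ y) := by
        rw [sum_dotProduct]
        refine Finset.sum_congr rfl fun j _ => ?_
        rw [smul_dotProduct, smul_eq_mul]
      rw [← h2, hκ, zero_dotProduct]
    have h2 : 0 < ∑ j, κ j * (A j ⬝ᵥ y) := by
      refine Finset.sum_pos' (fun j _ => ?_) ⟨l, Finset.mem_univ _, ?_⟩
      · by_cases hj : j ∈ L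
        · refine mul_nonneg ?_ (hy j hj).le
          by_cases hjl : j = l
          · rw [hjl, hκl]; norm_num
          · exact not_lt.1 (hcon (Finset.mem_erase.2 ⟨hjl, hj⟩))
        · rw [hκL j hj, zero_mul]
      · rw [hκl, one_mul]
        exact hy l hlL
    exact h2.ne' h1
  -- the first coordinate which vanishes
  obtain ⟨k, hk, hkmin⟩ := Finset.exists_min_image _ (fun j => lam j / (-κ j)) hneg
  rw [Finset.mem_filter] at hk
  obtain ⟨hkL, hkneg⟩ := hk
  have hkl : k ≠ l := (Finset.mem_erase.1 hkL).1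
  set t := lam k / (-κ k) with ht
  have htpos : 0 < t := div_pos (hpos k hkL) (by linarith)
  have hsol : ∀ t : ℝ, ∑ j, (lam j + t * κ j) • A j = h := by
    intro t
    have : ∀ j, (lam j + t * κ j) • A j = lam j • A j + t • (κ j • A j) := by
      intro j
      rw [add_smul, mul_smul]
    rw [Finset.sum_congr rfl fun j _ => this j, Finset.sum_add_distrib, ← Finset.smul_sum, hκ,
      smul_zero, add_zero, hs]
  have hout : ∀ (t : ℝ) (j : Fin m), j ∉ L → lam j + t * κ j = 0 := by
    intro t j hj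
    rw [hκL j hj, hlam j (fun h => hj (Finset.mem_of_mem_erase h)), mul_zero, add_zero]
  have htnn : ∀ j, 0 ≤ lam j + t * κ j := by
    intro j
    by_cases hj : j ∈ L
    · by_cases hjl : j = l
      · rw [hjl, hll, hκl]
        linarith
      · have hjL : j ∈ L.erase l := Finset.mem_erase.2 ⟨hjl, hj⟩
        by_cases hjn : κ j < 0
        · have h1 : t ≤ lam j / (-κ j) := hkmin j (Finset.mem_filter.2 ⟨hjL, hjn⟩)
          rw [le_div_iff₀ (by linarith)] at h1
          linarith
        · have := mul_nonneg htpos.le (not_lt.1 hjn)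
          have := hlam0 j
          linarith
    · rw [hout t j hj]
  have htk : lam k + t * κ k = 0 := by
    rw [ht]
    have : κ k ≠ 0 := hkneg.ne
    field_simp
    ring
  have hF : Fc A h L = {l, k} := by
    ext j
    rw [Finset.mem_insert, Finset.mem_singleton]
    constructor
    · intro hj
      by_contra hcon
      push Not at hcon
      obtain ⟨hjl, hjk⟩ := hcon
      obtain ⟨hjL, ν, hν0, hν, hνs⟩ := mem_Fc.1 hj
      have hνj : ν j = 0 := hν j (Finset.notMem_erase _ _)
      have hνL : ∀ i, i ∉ L → ν i = 0 := fun i hi => hν i fun h => hi (Finset.mem_of_mem_erase h)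
      have hl1 := hline ν hνL hνs
      have hjL' : j ∈ L.erase l := Finset.mem_erase.2 ⟨hjl, hjL⟩
      have h1 := hl1 j
      rw [hνj] at h1
      have h2 := hpos j hjL'
      have hνl : 0 ≤ ν l := hν0 l
      have hκj : κ j < 0 := by
        by_contra hc
        have := mul_nonneg hνl (not_lt.1 hc)
        linarith
      have h3 : t ≤ lam j / (-κ j) := hkmin j (Finset.mem_filter.2 ⟨hjL', hκj⟩)
      have h4 : ν l = lam j / (-κ j) := by
        rw [eq_div_iff (by linarith)]
        linarith
      have h5 := hl1 k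
      have h6 := hν0 k
      have h7 : t * κ k = - lam k := by linarith
      have h8 : ν l ≤ t := by
        by_contra hc
        push Not at hc
        have : ν l * κ k < t * κ k := mul_lt_mul_of_neg_right hc hkneg
        linarith
      have h9 : ν l = t := le_antisymm h8 (by rw [h4]; exact h3)
      -- two coordinates vanish
      have h10 : (L.erase j).card = d := by
        rw [Finset.card_erase_of_mem hjL, hL]; rfl
      have h11 := hg.ne_zero hνs h10 hν (j := k) (Finset.mem_erase.2 ⟨Ne.symm hjk,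
        Finset.mem_of_mem_erase hkL⟩)
      apply h11
      rw [h5, h9]
      exact htk
    · rintro (rfl | rfl)
      · exact hl
      · refine mem_Fc.2 ⟨Finset.mem_of_mem_erase hkL, fun j => lam j + t * κ j, htnn, fun i hi => ?_,
          hsol t⟩
        by_cases hik : i = j
        · rw [hik]; exact htk
        · exact hout t i fun h => hi (Finset.mem_erase.2 ⟨hik, h⟩)
  rw [hF, Finset.card_pair (Ne.symm hkl)]
  exact even_two

end Pool.Agent.Q226.ADDM
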