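import Mathlib

set_option autoImplicit false

/-!
# The approximate double description method (ADDM)

The input: a real matrix `A` with `m` rows and `d` columns, and `ε ≥ 0`. The polytope is
`P = {x : A x ≤ 1}`, and the first `d + 1` inequalities describe a simplex. A state of the method is
a finite graph whose nodes carry a point and a set of row indices.
-/

namespace Pool.Agent.Q226.ADDM

open Matrix

variable {m d : ℕ}

/-- The points `x` with `A x ≤ 1 + ε`: this is the polytope `P` for `ε = 0`, and `(1 + ε) P` in
general. -/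
def poly (A : Matrix (Fin m) (Fin d) ℝ) (ε : ℝ) : Set (Fin d → ℝ) :=
  {x | ∀ j, (A *ᵥ x) j ≤ 1 + ε}

/-- The set `S` described by the first `d + 1` inequalities. -/
def firstRows (A : Matrix (Fin m) (Fin d) ℝ) : Set (Fin d → ℝ) :=
  {x | ∀ j : Fin m, (j : ℕ) < d + 1 → (A *ᵥ x) j ≤ 1}

/-- A simplex of dimension `d` in `d`-dimensional space. -/
def IsSimplex (T : Set (Fin d → ℝ)) : Prop :=
  ∃ p : Fin (d + 1) → (Fin d → ℝ), AffineIndependent ℝ p ∧ T = convexHull ℝ (Set.range p)

/-- A state of the method: a finite graph with nodes `Node` and adjacency `adj`, a point `c v` and a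
set of indices `I v` for every node `v`. -/
structure State (m d : ℕ) where
  /-- the nodes -/
  Node : Type
  /-- there are finitely many nodes -/
  fin : Finite Node
  /-- the edges of the graph -/
  adj : Node → Node → Prop
  /-- the points -/
  c : Node → (Fin d → ℝ)
  /-- the index sets -/
  I : Node → Finset (Fin m)

/-- The set of the points `c v`, the output if this is the final state. -/
def State.points (s : State m d) : Set (Fin d → ℝ) := Set.range s.c

/-- The points `p j` which are used at the start: `p j` is the vertex of `(1 + ε / 2) S` at which all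
inequalities with numbers `k ≠ j` are tight. -/
def IsStart (A : Matrix (Fin m) (Fin d) ℝ) (ε : ℝ) (hm : d + 1 ≤ m)
    (p : Fin (d + 1) → (Fin d → ℝ)) : Prop :=
  ∀ j, (∀ k, (A *ᵥ (p j)) (Fin.castLE hm k) ≤ 1 + ε / 2) ∧
    ∀ k, k ≠ j → (A *ᵥ (p j)) (Fin.castLE hm k) = 1 + ε / 2

/-- The state at the start: a complete graph on `d + 1` nodes. -/
def start (hm : d + 1 ≤ m) (p : Fin (d + 1) → (Fin d → ℝ)) : State m d where
  Node := Fin (d + 1)
  fin := inferInstance
  adj := fun u v => u ≠ v
  c := p
  I := fun j => (Finset.univ.erase j).image (Fin.castLE hm)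

/-- The three parts of the set of nodes. -/
inductive Part : Type
  | minus : Part
  | zero : Part
  | plus : Part

/-- Admissible choices in step (a), for the row `i`: the part of every node. -/
structure StepA (A : Matrix (Fin m) (Fin d) ℝ) (ε : ℝ) (i : Fin m) (s : State m d)
    (σ : s.Node → Part) : Prop where
  /-- `V₋` is not empty -/
  nonempty : ∃ v, σ v = Part.minus
  /-- the nodes of `V₋` -/
  minus : ∀ v, σ v = Part.minus → (A *ᵥ (s.c v)) i < 1 + ε / 2
  /-- the nodes of `V₀` -/
  zero : ∀ v, σ v = Part.zero → 1 ≤ (A *ᵥ (s.c v)) i ∧ (A *ᵥ (s.c v)) i ≤ 1 + ε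
  /-- the nodes of `V₊` -/
  plus : ∀ v, σ v = Part.plus → 1 + ε / 2 < (A *ᵥ (s.c v)) i

/-- The edges `uw` with `u` in `V₋` and `w` in `V₊`. -/
def Cross (s : State m d) (σ : s.Node → Part) : Type :=
  {e : s.Node × s.Node // s.adj e.1 e.2 ∧ σ e.1 = Part.minus ∧ σ e.2 = Part.plus}

/-- Admissible choices in step (b): the points of the new nodes. -/
def StepB (A : Matrix (Fin m) (Fin d) ℝ) (ε : ℝ) (i : Fin m) (s : State m d)
    (σ : s.Node → Part) (q : Cross s σ → (Fin d → ℝ)) : Prop :=
  ∀ e : Cross s σ, q e ∈ segment ℝ (s.c e.1.1) (s.c e.1.2) ∧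
    1 ≤ (A *ᵥ (q e)) i ∧ (A *ᵥ (q e)) i ≤ 1 + ε

/-- The nodes after the steps (b) and (d): those which are not in `V₊`, and one for every edge
between `V₋` and `V₊`. -/
def NewNode (s : State m d) (σ : s.Node → Part) : Type :=
  {v : s.Node // σ v ≠ Part.plus} ⊕ Cross s σ

open Classical in
/-- The index sets after the steps (b) and (c): `i` is added to those of the nodes of `V₀`, which
contains all the new nodes. -/
noncomputable def newI (i : Fin m) (s : State m d) (σ : s.Node → Part) :
    NewNode s σ → Finset (Fin m)
  | Sum.inl v => if σ v.1 = Part.zero then insert i (s.I v.1) else s.I v.1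
  | Sum.inr e => insert i (s.I e.1.1 ∩ s.I e.1.2)

/-- The state after the steps (b), (c), (d), (e). -/
noncomputable def next (i : Fin m) (s : State m d) (σ : s.Node → Part)
    (q : Cross s σ → (Fin d → ℝ)) : State m d where
  Node := NewNode s σ
  fin := by
    have := s.fin
    unfold NewNode Cross
    infer_instance
  adj := fun u w => u ≠ w ∧ d - 1 ≤ (newI i s σ u ∩ newI i s σ w).card
  c := Sum.elim (fun v => s.c v.1) q
  I := newI i s σ

/-- `Reach A ε hm k s`: the state `s` can be the one after the rows with numbers less than `k` have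
been treated. -/
inductive Reach (A : Matrix (Fin m) (Fin d) ℝ) (ε : ℝ) (hm : d + 1 ≤ m) : ℕ → State m d → Prop
  | start (p : Fin (d + 1) → (Fin d → ℝ)) (hp : IsStart A ε hm p) :
      Reach A ε hm (d + 1) (start hm p)
  | next (i : Fin m) (s : State m d) (hs : Reach A ε hm i s) (σ : s.Node → Part)
      (hσ : StepA A ε i s σ) (q : Cross s σ → (Fin d → ℝ)) (hq : StepB A ε i s σ q) :
      Reach A ε hm (i + 1) (next i s σ q)

/-- Every run is correct: the start is possible, every step can be carried out (whatever has been
chosen before), and in every possible final state `P ⊆ conv c(V) ⊆ (1 + ε) P`. -/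
structure Correct (A : Matrix (Fin m) (Fin d) ℝ) (ε : ℝ) (hm : d + 1 ≤ m) : Prop where
  /-- the start is possible -/
  start : ∃ p, IsStart A ε hm p
  /-- the steps (a) can be carried out -/
  stepA : ∀ (i : Fin m) (s : State m d), Reach A ε hm i s → ∃ σ, StepA A ε i s σ
  /-- the steps (b) can be carried out -/
  stepB : ∀ (i : Fin m) (s : State m d), Reach A ε hm i s → ∀ σ, StepA A ε i s σ →
    ∃ q, StepB A ε i s σ q
  /-- the output contains `P` in its convex hull -/
  lower : ∀ s, Reach A ε hm m s → poly A 0 ⊆ convexHull ℝ s.points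
  /-- the output is contained in `(1 + ε) P` -/
  upper : ∀ s, Reach A ε hm m s → convexHull ℝ s.points ⊆ poly A ε

end Pool.Agent.Q226.ADDM
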