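import Pool.Agent.Q226.ADDM.Cone

set_option autoImplicit false

/-!
# The normals of a simplex
-/

namespace Pool.Agent.Q226.ADDM

open Matrix

variable {m d : ℕ}

/-- If the inequalities with numbers in `L` describe a bounded set then there is a relation with
positive coefficients between the normals, and every vector of values which is orthogonal to it is
attained. -/
theorem bounded_rel {A : Fin m → Fin d → ℝ} {L : Finset (Fin m)} (hL : L.card = d + 1)
    (hb : ∀ y : Fin d → ℝ, (∀ l ∈ L, A l ⬝ᵥ y ≤ 0) → y = 0) :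
    ∃ κ : Fin m → ℝ, (∀ j, j ∉ L → κ j = 0) ∧ (∑ j, κ j • A j = 0) ∧ (∀ j ∈ L, 0 < κ j) ∧
      ∀ u : Fin m → ℝ, ∑ j, κ j * u j = 0 → ∃ y : Fin d → ℝ, ∀ j ∈ L, A j ⬝ᵥ y = u j := by
  classical
  obtain ⟨κ, hκL, hκ, j0, hj0, hκ0⟩ := exists_rel A hL
  -- the map to the values
  let T : (Fin d → ℝ) →ₗ[ℝ] (L → ℝ) :=
    { toFun := fun y j => A j ⬝ᵥ y
      map_add' := fun x y => by ext j; simp [dotProduct_add]
      map_smul' := fun t y => by ext j; simp [dotProduct_smul] }
  have hTinj : Function.Injective T := by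
    rw [← LinearMap.ker_eq_bot, LinearMap.ker_eq_bot']
    intro y hy
    refine hb y fun l hl => ?_
    exact (congrFun hy ⟨l, hl⟩).le
  let f : (L → ℝ) →ₗ[ℝ] ℝ :=
    { toFun := fun u => ∑ j : L, κ j * u j
      map_add' := fun x y => by simp [mul_add, Finset.sum_add_distrib]
      map_smul' := fun t y => by
        simp only [Pi.smul_apply, smul_eq_mul, RingHom.id_apply, Finset.mul_sum]
        refine Finset.sum_congr rfl fun j _ => ?_
        ring }
  have hle : LinearMap.range T ≤ LinearMap.ker f := by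
    rintro _ ⟨y, rfl⟩
    rw [LinearMap.mem_ker]
    show ∑ j : L, κ j * (A j ⬝ᵥ y) = 0
    have h1 : (∑ j, κ j • A j) ⬝ᵥ y = ∑ j, κ j * (A j ⬝ᵥ y) := by
      rw [sum_dotProduct]
      refine Finset.sum_congr rfl fun j _ => ?_
      rw [smul_dotProduct, smul_eq_mul]
    rw [hκ, zero_dotProduct] at h1
    rw [Finset.sum_coe_sort L (fun j => κ j * (A j ⬝ᵥ y)), h1]
    refine Finset.sum_subset (Finset.subset_univ L) fun j _ hj => ?_
    rw [hκL j hj, zero_mul]
  have hf : f ≠ 0 := by
    intro h
    have h1 := LinearMap.congr_fun h (Pi.single ⟨j0, hj0⟩ 1)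
    apply hκ0
    have h2 : f (Pi.single ⟨j0, hj0⟩ 1) = κ j0 := by
      show ∑ j : L, κ j * (Pi.single (M := fun _ => ℝ) (⟨j0, hj0⟩ : L) 1 j) = κ j0
      rw [Finset.sum_eq_single (⟨j0, hj0⟩ : L)]
      · simp
      · intro b _ hbne
        rw [Pi.single_eq_of_ne hbne, mul_zero]
      · intro h; exact absurd (Finset.mem_univ _) h
    rw [← h2, h1]
    rfl
  have heq : LinearMap.range T = LinearMap.ker f := by
    apply Submodule.eq_of_le_of_finrank_eq hle
    have h1 : Module.finrank ℝ (LinearMap.range T) = d := by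
      rw [LinearMap.finrank_range_of_inj hTinj, Module.finrank_fin_fun]
    have h2 := LinearMap.finrank_range_add_finrank_ker f
    have h3 : Module.finrank ℝ (LinearMap.range f) = 1 := by
      rw [LinearMap.range_eq_top.2 (LinearMap.surjective hf), finrank_top, Module.finrank_self]
    have h4 : Module.finrank ℝ (L → ℝ) = d + 1 := by
      rw [Module.finrank_fintype_fun_eq_card, Fintype.card_coe, hL]
    rw [h3, h4] at h2
    omega
  have hsol : ∀ u : Fin m → ℝ, ∑ j, κ j * u j = 0 → ∃ y : Fin d → ℝ, ∀ j ∈ L, A j ⬝ᵥ y = u j := by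
    intro u hu
    have h1 : (fun j : L => u j) ∈ LinearMap.range T := by
      rw [heq, LinearMap.mem_ker]
      show ∑ j : L, κ j * u j = 0
      rw [Finset.sum_coe_sort L (fun j => κ j * u j), ← hu]
      refine Finset.sum_subset (Finset.subset_univ L) fun j _ hj => ?_
      rw [hκL j hj, zero_mul]
    obtain ⟨y, hy⟩ := h1
    exact ⟨y, fun j hj => congrFun hy ⟨j, hj⟩⟩
  -- no coefficient vanishes
  have hne : ∀ l ∈ L, κ l ≠ 0 := by
    intro l hl h0
    obtain ⟨y, hy⟩ := hsol (Pi.single l (-1)) (by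
      rw [Finset.sum_eq_single l]
      · rw [h0, zero_mul]
      · intro b _ hbl
        rw [Pi.single_eq_of_ne hbl, mul_zero]
      · intro h; exact absurd (Finset.mem_univ _) h)
    have h1 : y = 0 := hb y fun j hj => by
      rw [hy j hj]
      by_cases hjl : j = l
      · rw [hjl, Pi.single_eq_same]; norm_num
      · rw [Pi.single_eq_of_ne hjl]
    have h2 := hy l hl
    rw [h1, dotProduct_zero, Pi.single_eq_same] at h2
    norm_num at h2
  -- all coefficients have the same sign
  have hsame : ∀ p ∈ L, ∀ q ∈ L, 0 < κ p → 0 < κ q := by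
    intro p hp q hq hpp
    by_contra hqq
    have hqn : κ q < 0 := lt_of_le_of_ne (not_lt.1 hqq) (hne q hq)
    have hpq : p ≠ q := by
      rintro rfl
      exact hqq hpp
    obtain ⟨y, hy⟩ := hsol (fun j => if j = p then κ q else if j = q then -κ p else 0) (by
      rw [← Finset.sum_subset (Finset.subset_univ {p, q})]
      · rw [Finset.sum_pair hpq]
        simp only [if_true, if_neg (Ne.symm hpq)]
        ring
      · intro j _ hj
        rw [Finset.mem_insert, Finset.mem_singleton] at hj
        push Not at hj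
        simp only [if_neg hj.1, if_neg hj.2, mul_zero])
    have h1 : y = 0 := hb y fun j hj => by
      rw [hy j hj]
      by_cases hjp : j = p
      · simp only [if_pos hjp]; exact hqn.le
      · by_cases hjq : j = q
        · simp only [if_neg hjp, if_pos hjq]; linarith
        · simp only [if_neg hjp, if_neg hjq]; exact le_rfl
    have h2 := hy p hp
    rw [h1, dotProduct_zero, if_pos rfl] at h2
    exact hqn.ne h2.symm
  rcases lt_or_gt_of_ne hκ0 with hlt | hgt
  · refine ⟨fun j => -κ j, fun j hj => by simp only [hκL j hj, neg_zero], ?_, ?_, ?_⟩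
    · simp only [neg_smul, Finset.sum_neg_distrib, hκ, neg_zero]
    · intro j hj
      have : κ j < 0 := by
        by_contra hcon
        have h1 : 0 < κ j := lt_of_le_of_ne (not_lt.1 hcon) (hne j hj).symm
        have := hsame j hj j0 hj0 h1
        linarith
      linarith
    · intro u hu
      apply hsol
      simp only [neg_mul, Finset.sum_neg_distrib, neg_eq_zero] at hu
      exact hu
  · exact ⟨κ, hκL, hκ, fun j hj => hsame j0 hj0 j hj hgt, hsol⟩

/-- **A generic direction hits exactly one facet of a simplex of normals of a bounded simplex.** -/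
theorem card_Fc_one {A : Fin m → Fin d → ℝ} {h : Fin d → ℝ} (hg : Gen A h) {L : Finset (Fin m)}
    (hL : L.card = d + 1) (hb : ∀ y : Fin d → ℝ, (∀ l ∈ L, A l ⬝ᵥ y ≤ 0) → y = 0) :
    (Fc A h L).card = 1 := by
  classical
  obtain ⟨κ, hκL, hκ, hpos, hsol⟩ := bounded_rel hL hb
  have hLne : L.Nonempty := Finset.card_pos.1 (by omega)
  -- a representation of `h`
  obtain ⟨ν, hνL, hν⟩ : ∃ ν : Fin m → ℝ, (∀ j, j ∉ L → ν j = 0) ∧ ∑ j, ν j • A j = h := by
    have hspan : Submodule.span ℝ (A '' (L : Set (Fin m))) = ⊤ := by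
      by_contra hne
      obtain ⟨f, hf0, hf⟩ := Submodule.exists_le_ker_of_lt_top _ (lt_top_iff_ne_top.2 hne)
      -- represent `f` as a scalar product
      obtain ⟨y, hy⟩ : ∃ y : Fin d → ℝ, ∀ x, f x = x ⬝ᵥ y := by
        refine ⟨fun i => f (Pi.single i 1), fun x => ?_⟩
        conv_lhs => rw [← Finset.univ_sum_single x]
        rw [map_sum, dotProduct]
        refine Finset.sum_congr rfl fun i _ => ?_
        have : (Pi.single i (x i) : Fin d → ℝ) = x i • Pi.single i (1 : ℝ) := by
          rw [← Pi.single_smul, smul_eq_mul, mul_one]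
        rw [this, map_smul, smul_eq_mul]
      have h0 : y = 0 := hb y fun l hl => by
        rw [← hy]
        exact (LinearMap.mem_ker.1 (hf (Submodule.subset_span ⟨l, hl, rfl⟩))).le
      apply hf0
      ext x
      simp [hy, h0]
    have hmem : h ∈ Submodule.span ℝ (A '' (L : Set (Fin m))) := by rw [hspan]; trivial
    rw [Submodule.mem_span_image_finset_iff_exists_fun] at hmem
    obtain ⟨c, hc⟩ := hmem
    refine ⟨fun j => if hj : j ∈ L then c ⟨j, hj⟩ else 0, fun j hj => dif_neg hj, ?_⟩
    rw [← hc, ← Finset.sum_subset (Finset.subset_univ L)]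
    · rw [← Finset.sum_coe_sort L]
      refine Finset.sum_congr rfl fun j _ => ?_
      simp only [dif_pos j.2]
    · intro j _ hj
      simp only [dif_neg hj, zero_smul]
  obtain ⟨l, hl, hmin⟩ := Finset.exists_min_image L (fun j => ν j / κ j) hLne
  have hlpos := hpos l hl
  -- a facet which is hit
  have hlF : l ∈ Fc A h L := by
    refine mem_Fc.2 ⟨hl, fun j => ν j - ν l / κ l * κ j, fun j => ?_, fun j hj => ?_, ?_⟩
    · by_cases hj : j ∈ L
      · have h1 := hmin j hj
        have h2 := hpos j hj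
        rw [le_div_iff₀ h2] at h1
        linarith
      · simp [hνL j hj, hκL j hj]
    · by_cases hjl : j = l
      · rw [hjl]; field_simp; ring
      · have hjL : j ∉ L := fun h => hj (Finset.mem_erase.2 ⟨hjl, h⟩)
        simp [hνL j hjL, hκL j hjL]
    · have : ∀ j, (ν j - ν l / κ l * κ j) • A j = ν j • A j - (ν l / κ l) • (κ j • A j) := by
        intro j
        rw [sub_smul, mul_smul]
      rw [Finset.sum_congr rfl fun j _ => this j, Finset.sum_sub_distrib, ← Finset.smul_sum, hκ,
        smul_zero, sub_zero, hν]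
  rw [Finset.card_eq_one]
  refine ⟨l, Finset.eq_singleton_iff_unique_mem.2 ⟨hlF, fun k hk => ?_⟩⟩
  by_contra hkl
  obtain ⟨_, lam, hlam0, hlam, hs⟩ := mem_Fc.1 hlF
  obtain ⟨hkL, mu, hmu0, hmu, hmus⟩ := mem_Fc.1 hk
  obtain ⟨_, hline⟩ := line hg hL hκL hκ ⟨l, hl, hlpos.ne'⟩ hl hlam hs
  have h1 := hline mu (fun j hj => hmu j fun h => hj (Finset.mem_of_mem_erase h)) hmus k
  rw [hmu k (Finset.notMem_erase _ _)] at h1
  have hcard : (L.erase l).card = d := by
    rw [Finset.card_erase_of_mem hl, hL]; rfl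
  have h2 := hg.ne_zero hs hcard hlam (j := k) (Finset.mem_erase.2 ⟨hkl, hkL⟩)
  have h3 : 0 < lam k := lt_of_le_of_ne (hlam0 k) h2.symm
  have h4 : 0 ≤ mu l / κ l * κ k := mul_nonneg (div_nonneg (hmu0 l) hlpos.le) (hpos k hkL).le
  linarith

end Pool.Agent.Q226.ADDM
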