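import Pool.Agent.Q226.ADDM.Defs
import Pool.Agent.Q226.ADDM.Simplex
import Pool.Agent.Q226.ADDM.Chain

set_option autoImplicit false

/-!
# The approximate double description method is correct in every dimension

Invariant: there is a cycle `z` modulo two, of dimension `d - 1`, on the set of the indices treated
so far, all of whose simplices `K` are contained in the index set of some node, and such that every
generic direction lies in the cones over an odd number of the simplices (a simplex `K` spans the
cone of the rows `A j`, `j ∈ K`). If a point of `P` were not in the convex hull of the points of the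
nodes then for a separating direction `h` no cone over a simplex of `z` could contain `h`.
-/

namespace Pool.Agent.Q226.ADDM

open Matrix

variable {m d : ℕ}

/-- `1` if `h` is in the cone of `K`, and `0` otherwise -/
noncomputable def phi (A : Fin m → Fin d → ℝ) (h : Fin d → ℝ) (K : Finset (Fin m)) : ZMod 2 :=
  @ite _ (InCone A h K) (Classical.propDecidable _) 1 0

theorem sum_phi (A : Fin m → Fin d → ℝ) (h : Fin d → ℝ) (L : Finset (Fin m)) :
    ∑ l ∈ L, phi A h (L.erase l) = ((Fc A h L).card : ZMod 2) := by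
  classical
  have h1 : Fc A h L = L.filter (fun l => InCone A h (L.erase l)) := by
    ext l
    rw [mem_Fc, Finset.mem_filter]
  rw [h1, Finset.card_filter, Nat.cast_sum]
  refine Finset.sum_congr rfl fun l _ => ?_
  unfold phi
  by_cases hc : InCone A h (L.erase l)
  · rw [if_pos hc, if_pos hc, Nat.cast_one]
  · rw [if_neg hc, if_neg hc, Nat.cast_zero]

/-- The invariant. -/
structure Inv (A : Matrix (Fin m) (Fin d) ℝ) (ε : ℝ) (k : ℕ) (s : State m d) : Prop where
  tight : ∀ v j, j ∈ s.I v → (j : ℕ) < k ∧ 1 ≤ (A *ᵥ s.c v) j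
  upper : ∀ v (j : Fin m), (j : ℕ) < k → (A *ᵥ s.c v) j ≤ 1 + ε
  adj : ∀ u w, u ≠ w → d - 1 ≤ (s.I u ∩ s.I w).card → s.adj u w
  chain : ∃ z : Finset (Fin m) → ZMod 2, (∀ K, z K ≠ 0 → K.card = d ∧ ∃ v, K ⊆ s.I v) ∧
    (∀ K, bd z K = 0) ∧ ∀ h, Gen A h → ∑ K, z K * phi A h K = 1

theorem exists_dot (f : (Fin d → ℝ) →ₗ[ℝ] ℝ) : ∃ y : Fin d → ℝ, ∀ x, f x = x ⬝ᵥ y := by
  refine ⟨fun i => f (Pi.single i 1), fun x => ?_⟩
  conv_lhs => rw [← Finset.univ_sum_single x]
  rw [map_sum, dotProduct]
  refine Finset.sum_congr rfl fun i _ => ?_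
  have : (Pi.single i (x i) : Fin d → ℝ) = x i • Pi.single i (1 : ℝ) := by
    rw [← Pi.single_smul, smul_eq_mul, mul_one]
  rw [this, map_smul, smul_eq_mul]

/-- The points of the nodes enclose the polytope. -/
theorem hull_of_inv {A : Matrix (Fin m) (Fin d) ℝ} {ε : ℝ} {k : ℕ} {s : State m d}
    (hI : Inv A ε k s) : {x | ∀ j : Fin m, (j : ℕ) < k → (A *ᵥ x) j ≤ 1} ⊆
      convexHull ℝ s.points := by
  intro x hx
  by_contra hcon
  have := s.fin
  have hfin : (s.points).Finite := Set.finite_range s.c
  obtain ⟨f, u, hf1, hf2⟩ := geometric_hahn_banach_closed_point (convex_convexHull ℝ s.points)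
    (hfin.isCompact_convexHull ℝ).isClosed hcon
  obtain ⟨h0, hh0⟩ := exists_dot (f : (Fin d → ℝ) →ₗ[ℝ] ℝ)
  have hU : IsOpen (⋂ v : s.Node, {h : Fin d → ℝ | s.c v ⬝ᵥ h < x ⬝ᵥ h}) := by
    refine isOpen_iInter_of_finite fun v => isOpen_lt ?_ ?_
    · exact continuous_finsetSum _ fun i _ => continuous_const.mul (continuous_apply i)
    · exact continuous_finsetSum _ fun i _ => continuous_const.mul (continuous_apply i)
  obtain ⟨h, hh, hg⟩ := exists_gen (fun j => A j) hU ⟨h0, by
    refine Set.mem_iInter.2 fun v => ?_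
    have h1 := hf1 (s.c v) (subset_convexHull ℝ _ ⟨v, rfl⟩)
    have h2 : f (s.c v) = s.c v ⬝ᵥ h0 := hh0 _
    have h3 : f x = x ⬝ᵥ h0 := hh0 _
    show s.c v ⬝ᵥ h0 < x ⬝ᵥ h0
    rw [← h2, ← h3]
    exact h1.trans hf2⟩
  obtain ⟨z, hz1, hz2, hz3⟩ := hI.chain
  have hsum := hz3 h hg
  obtain ⟨K, _, hK⟩ : ∃ K ∈ Finset.univ, z K * phi A h K ≠ 0 := by
    by_contra hc
    push Not at hc
    rw [Finset.sum_eq_zero fun K hK => hc K hK] at hsum
    exact zero_ne_one hsum
  have hzK : z K ≠ 0 := left_ne_zero_of_mul hK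
  have hφ : phi A h K ≠ 0 := right_ne_zero_of_mul hK
  obtain ⟨hKd, v, hKv⟩ := hz1 K hzK
  have hin : InCone A h K := by
    by_contra hc
    apply hφ
    unfold phi
    exact @if_neg _ (Classical.propDecidable _) hc _ _ _
  obtain ⟨l, hl0, hlK, hls⟩ := hin
  have hlt : s.c v ⬝ᵥ h < x ⬝ᵥ h := Set.mem_iInter.1 hh v
  have hdot : ∀ y : Fin d → ℝ, y ⬝ᵥ h = ∑ j, l j * (A *ᵥ y) j := by
    intro y
    rw [← hls, dotProduct_sum]
    refine Finset.sum_congr rfl fun j _ => ?_
    rw [dotProduct_smul, smul_eq_mul, dotProduct_comm]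
    rfl
  rw [hdot, hdot] at hlt
  have h1 : ∑ j, l j * (A *ᵥ x) j ≤ ∑ j, l j * (A *ᵥ s.c v) j := by
    refine Finset.sum_le_sum fun j _ => ?_
    by_cases hj : j ∈ K
    · obtain ⟨h2, h3⟩ := hI.tight v j (hKv hj)
      exact mul_le_mul_of_nonneg_left ((hx j h2).trans h3) (hl0 j)
    · rw [hlK j hj, zero_mul, zero_mul]
  linarith

/-- the first `d + 1` indices -/
def L0 (hm : d + 1 ≤ m) : Finset (Fin m) := Finset.univ.image (Fin.castLE hm)

theorem mem_L0 (hm : d + 1 ≤ m) (j : Fin m) : j ∈ L0 hm ↔ (j : ℕ) < d + 1 := by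
  unfold L0
  rw [Finset.mem_image]
  constructor
  · rintro ⟨k, _, rfl⟩
    exact k.2
  · intro h
    exact ⟨⟨j, h⟩, Finset.mem_univ _, rfl⟩

theorem card_L0 (hm : d + 1 ≤ m) : (L0 hm).card = d + 1 := by
  unfold L0
  rw [Finset.card_image_of_injective _ (Fin.castLE_injective hm), Finset.card_univ, Fintype.card_fin]

/-- a bounded system of inequalities -/
theorem recession {A : Matrix (Fin m) (Fin d) ℝ} (hm : d + 1 ≤ m) (hS : IsSimplex (firstRows A)) :
    ∀ y : Fin d → ℝ, (∀ l ∈ L0 hm, A l ⬝ᵥ y ≤ 0) → y = 0 := by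
  intro y hy
  obtain ⟨p, _, hp⟩ := hS
  have hb : Bornology.IsBounded (firstRows A) := by
    rw [hp]
    exact ((Set.finite_range p).isCompact_convexHull ℝ).isBounded
  obtain ⟨R, hR⟩ := hb.exists_norm_le
  by_contra hne
  have hn : 0 < ‖y‖ := norm_pos_iff.2 hne
  have hmem : (((|R| + 1) / ‖y‖) • y) ∈ firstRows A := by
    intro j hj
    rw [mulVec_smul]
    have h1 : (A *ᵥ y) j ≤ 0 := hy j ((mem_L0 hm j).2 hj)
    have h2 : 0 ≤ (|R| + 1) / ‖y‖ := by positivity
    rw [Pi.smul_apply, smul_eq_mul]
    have := mul_nonpos_of_nonneg_of_nonpos h2 h1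
    linarith
  have h1 := hR _ hmem
  rw [norm_smul, Real.norm_of_nonneg (by positivity), div_mul_cancel₀ _ hn.ne'] at h1
  have := le_abs_self R
  linarith

theorem exists_start {A : Matrix (Fin m) (Fin d) ℝ} {ε : ℝ} (hε : 0 ≤ ε) (hm : d + 1 ≤ m)
    (hS : IsSimplex (firstRows A)) : ∃ p, IsStart A ε hm p := by
  classical
  obtain ⟨κ, hκL, hκ, hpos, hsol⟩ := bounded_rel (A := fun j => A j) (card_L0 hm) (recession hm hS)
  have key : ∀ j : Fin (d + 1), ∃ y : Fin d → ℝ,
      (∀ k, (A *ᵥ y) (Fin.castLE hm k) ≤ 1 + ε / 2) ∧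
      ∀ k, k ≠ j → (A *ᵥ y) (Fin.castLE hm k) = 1 + ε / 2 := by
    intro j
    set l := Fin.castLE hm j with hl
    have hlL : l ∈ L0 hm := by
      unfold L0
      exact Finset.mem_image_of_mem _ (Finset.mem_univ _)
    have hlpos := hpos l hlL
    set S := ∑ k ∈ Finset.univ.erase l, κ k * (1 + ε / 2) with hSdef
    have hSnn : 0 ≤ S := by
      refine Finset.sum_nonneg fun k _ => mul_nonneg ?_ (by linarith)
      by_cases hk : k ∈ L0 hm
      · exact (hpos k hk).le
      · rw [hκL k hk]
    obtain ⟨y, hy⟩ := hsol (fun k => if k = l then -S / κ l else 1 + ε / 2) (by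
      rw [← Finset.add_sum_erase _ _ (Finset.mem_univ l)]
      simp only [if_true]
      have h1 : ∑ x ∈ Finset.univ.erase l, κ x * (if x = l then -S / κ l else 1 + ε / 2) = S := by
        refine Finset.sum_congr rfl fun k hk => ?_
        rw [if_neg (Finset.ne_of_mem_erase hk)]
      rw [h1]
      field_simp
      ring)
    have hval : ∀ k, (A *ᵥ y) (Fin.castLE hm k) =
        if Fin.castLE hm k = l then -S / κ l else 1 + ε / 2 := by
      intro k
      exact hy _ (Finset.mem_image_of_mem _ (Finset.mem_univ _))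
    refine ⟨y, fun k => ?_, fun k hk => ?_⟩
    · rw [hval]
      split_ifs
      · have : -S / κ l ≤ 0 := div_nonpos_of_nonpos_of_nonneg (by linarith) hlpos.le
        linarith
      · exact le_rfl
    · rw [hval, if_neg]
      intro h
      exact hk (Fin.castLE_injective hm h)
  choose p hp1 hp2 using key
  exact ⟨p, fun j => ⟨hp1 j, hp2 j⟩⟩

theorem inv_start {A : Matrix (Fin m) (Fin d) ℝ} {ε : ℝ} (hε : 0 ≤ ε) (hm : d + 1 ≤ m)
    (hS : IsSimplex (firstRows A)) {p : Fin (d + 1) → (Fin d → ℝ)} (hp : IsStart A ε hm p) :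
    Inv A ε (d + 1) (start hm p) := by
  classical
  refine ⟨?_, ?_, ?_, ?_⟩
  · intro v j hj
    obtain ⟨k, hk, rfl⟩ := Finset.mem_image.1 hj
    refine ⟨k.2, ?_⟩
    have h1 := (hp v).2 k (Finset.ne_of_mem_erase hk)
    show 1 ≤ (A *ᵥ p v) _
    rw [h1]
    linarith
  · intro v j hj
    have h1 := (hp v).1 ⟨j, hj⟩
    have h2 : (Fin.castLE hm ⟨j, hj⟩ : Fin m) = j := rfl
    rw [h2] at h1
    show (A *ᵥ p v) j ≤ 1 + ε
    linarith
  · intro u w huw _
    exact huw
  · set ind : Finset (Fin m) → ZMod 2 := fun L => if L = L0 hm then 1 else 0 with hind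
    refine ⟨bd ind, ?_, bd_bd ind, ?_⟩
    · intro K hK
      obtain ⟨j, hj, hj2⟩ : ∃ j ∈ Kᶜ, ind (insert j K) ≠ 0 := by
        by_contra hc
        push Not at hc
        exact hK (Finset.sum_eq_zero hc)
      have hins : insert j K = L0 hm := by
        by_contra hc
        apply hj2
        rw [hind]
        simp only [if_neg hc]
      rw [Finset.mem_compl] at hj
      have h1 := card_L0 hm
      rw [← hins, Finset.card_insert_of_notMem hj] at h1
      refine ⟨by omega, ?_⟩
      have hjL : j ∈ L0 hm := by rw [← hins]; exact Finset.mem_insert_self _ _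
      obtain ⟨v, _, hv⟩ := Finset.mem_image.1 hjL
      refine ⟨v, fun k hk => ?_⟩
      have hkL : k ∈ L0 hm := by rw [← hins]; exact Finset.mem_insert_of_mem hk
      obtain ⟨w, _, hw⟩ := Finset.mem_image.1 hkL
      refine Finset.mem_image.2 ⟨w, Finset.mem_erase.2 ⟨?_, Finset.mem_univ _⟩, hw⟩
      rintro rfl
      rw [hv] at hw
      exact hj (hw ▸ hk)
    · intro h hg
      have h1 : ∑ K, bd ind K * phi A h K = ∑ l ∈ L0 hm, phi A h ((L0 hm).erase l) := by
        have h2 : ∀ K, bd ind K * phi A h K =
            ∑ j, if j ∉ K ∧ insert j K = L0 hm then phi A h K else 0 := by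
          intro K
          unfold bd
          rw [Finset.sum_mul, ← Finset.sum_subset (Finset.subset_univ Kᶜ)]
          · refine Finset.sum_congr rfl fun j hj => ?_
            rw [Finset.mem_compl] at hj
            rw [hind]
            by_cases hc : insert j K = L0 hm
            · simp only [if_pos hc, if_pos (And.intro hj hc), one_mul]
            · simp only [if_neg hc, if_neg fun h : j ∉ K ∧ insert j K = L0 hm => hc h.2, zero_mul]
          · intro j _ hj
            rw [Finset.mem_compl, not_not] at hj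
            rw [if_neg fun h => h.1 hj]
        rw [Finset.sum_congr rfl fun K _ => h2 K, Finset.sum_comm,
          ← Finset.sum_subset (Finset.subset_univ (L0 hm))]
        · refine Finset.sum_congr rfl fun l hl => ?_
          rw [Finset.sum_eq_single ((L0 hm).erase l)]
          · rw [if_pos ⟨Finset.notMem_erase _ _, Finset.insert_erase hl⟩]
          · intro K _ hK
            rw [if_neg]
            rintro ⟨h3, h4⟩
            apply hK
            rw [← h4, Finset.erase_insert h3]
          · intro h; exact absurd (Finset.mem_univ _) h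
        · intro l _ hl
          refine Finset.sum_eq_zero fun K _ => ?_
          rw [if_neg]
          rintro ⟨_, h4⟩
          apply hl
          rw [← h4]
          exact Finset.mem_insert_self _ _
      have h2 := sum_phi (fun j => A j) h (L0 hm)
      have h3 := card_Fc_one (A := fun j => A j) hg (card_L0 hm) (recession hm hS)
      rw [h3, Nat.cast_one] at h2
      exact h1.trans h2

theorem inv_next {A : Matrix (Fin m) (Fin d) ℝ} {ε : ℝ} (hε : 0 ≤ ε) (i : Fin m) (s : State m d)
    (hI : Inv A ε i s) (σ : s.Node → Part) (hσ : StepA A ε i s σ) (q : Cross s σ → (Fin d → ℝ))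
    (hq : StepB A ε i s σ q) : Inv A ε (i + 1) (next i s σ q) := by
  classical
  have hseg : ∀ (e : Cross s σ) (j : Fin m) (a : ℝ), a ≤ (A *ᵥ s.c e.1.1) j →
      a ≤ (A *ᵥ s.c e.1.2) j → a ≤ (A *ᵥ q e) j := by
    intro e j a h1 h2
    obtain ⟨t, u, ht, hu, htu, hx⟩ := (hq e).1
    rw [← hx, mulVec_add, mulVec_smul, mulVec_smul, Pi.add_apply, Pi.smul_apply, Pi.smul_apply,
      smul_eq_mul, smul_eq_mul]
    have h3 := mul_le_mul_of_nonneg_left h1 ht
    have h4 := mul_le_mul_of_nonneg_left h2 hu
    have h5 : t * a + u * a = a := by rw [← add_mul, htu, one_mul]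
    linarith
  have hseg' : ∀ (e : Cross s σ) (j : Fin m) (a : ℝ), (A *ᵥ s.c e.1.1) j ≤ a →
      (A *ᵥ s.c e.1.2) j ≤ a → (A *ᵥ q e) j ≤ a := by
    intro e j a h1 h2
    obtain ⟨t, u, ht, hu, htu, hx⟩ := (hq e).1
    rw [← hx, mulVec_add, mulVec_smul, mulVec_smul, Pi.add_apply, Pi.smul_apply, Pi.smul_apply,
      smul_eq_mul, smul_eq_mul]
    have h3 := mul_le_mul_of_nonneg_left h1 ht
    have h4 := mul_le_mul_of_nonneg_left h2 hu
    have h5 : t * a + u * a = a := by rw [← add_mul, htu, one_mul]
    linarith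
  refine ⟨?_, ?_, ?_, ?_⟩
  · rintro (v | e) j hj
    · have hj' : j ∈ (if σ v.1 = Part.zero then insert i (s.I v.1) else s.I v.1) := hj
      show (j : ℕ) < i + 1 ∧ 1 ≤ (A *ᵥ s.c v.1) j
      by_cases hc : σ v.1 = Part.zero
      · rw [if_pos hc, Finset.mem_insert] at hj'
        rcases hj' with rfl | hj'
        · exact ⟨by omega, (hσ.zero v.1 hc).1⟩
        · obtain ⟨h1, h2⟩ := hI.tight v.1 j hj'
          exact ⟨by omega, h2⟩
      · rw [if_neg hc] at hj'
        obtain ⟨h1, h2⟩ := hI.tight v.1 j hj'
        exact ⟨by omega, h2⟩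
    · have hj' : j ∈ insert i (s.I e.1.1 ∩ s.I e.1.2) := hj
      show (j : ℕ) < i + 1 ∧ 1 ≤ (A *ᵥ q e) j
      rw [Finset.mem_insert, Finset.mem_inter] at hj'
      rcases hj' with rfl | ⟨hj1, hj2⟩
      · exact ⟨by omega, (hq e).2.1⟩
      · obtain ⟨h1, h2⟩ := hI.tight _ j hj1
        obtain ⟨h3, h4⟩ := hI.tight _ j hj2
        exact ⟨by omega, hseg e j 1 h2 h4⟩
  · rintro (v | e) j hj
    · show (A *ᵥ s.c v.1) j ≤ 1 + ε
      by_cases hji : (j : ℕ) < i
      · exact hI.upper v.1 j hji
      · have : j = i := Fin.ext (by omega)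
        subst this
        rcases hpart : σ v.1 with _ | _ | _
        · have := hσ.minus v.1 hpart
          linarith
        · exact (hσ.zero v.1 hpart).2
        · exact absurd hpart v.2
    · show (A *ᵥ q e) j ≤ 1 + ε
      by_cases hji : (j : ℕ) < i
      · exact hseg' e j _ (hI.upper _ j hji) (hI.upper _ j hji)
      · have : j = i := Fin.ext (by omega)
        subst this
        exact (hq e).2.2
  · intro u w huw hc
    exact ⟨huw, hc⟩
  · obtain ⟨z, hz1, hz2, hz3⟩ := hI.chain
    have hzi : ∀ K, i ∈ K → z K = 0 := by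
      intro K hK
      by_contra hc
      obtain ⟨_, v, hv⟩ := hz1 K hc
      have := (hI.tight v i (hv hK)).1
      omega
    -- a node for every simplex
    have hnode : ∀ K, ∃ v : s.Node, z K ≠ 0 → K ⊆ s.I v := by
      intro K
      by_cases hc : z K = 0
      · obtain ⟨v, _⟩ := hσ.nonempty
        exact ⟨v, fun h => absurd hc h⟩
      · obtain ⟨_, v, hv⟩ := hz1 K hc
        exact ⟨v, fun _ => hv⟩
    choose nd hnd using hnode
    set keep : Finset (Fin m) → ZMod 2 := fun K => if σ (nd K) = Part.plus then 0 else z K with hkd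
    have hkeep : ∀ K, keep K = z K ∨ keep K = 0 := by
      intro K
      rw [hkd]
      by_cases hc : σ (nd K) = Part.plus
      · right; simp only [if_pos hc]
      · left; simp only [if_neg hc]
    obtain ⟨hs1, hs2⟩ := step_chain i z keep hz2 hzi hkeep
    refine ⟨fun K => keep K + cone i (bd keep) K, ?_, hs1, ?_⟩
    · intro K hK
      by_cases hk0 : keep K = 0
      · -- a new simplex
        have hcn : cone i (bd keep) K ≠ 0 := by
          intro h
          apply hK
          simp only [hk0, h, add_zero]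
        have hiK : i ∈ K := by
          by_contra hc
          apply hcn
          unfold cone
          rw [if_neg hc]
        have hb : bd keep (K.erase i) ≠ 0 := by
          intro h
          apply hcn
          unfold cone
          rw [if_pos hiK, h]
        set K' := K.erase i with hK'
        have hKK' : K = insert i K' := (Finset.insert_erase hiK).symm
        obtain ⟨j, hj, hj2⟩ : ∃ j ∈ K'ᶜ, keep (insert j K') ≠ 0 := by
          by_contra hc
          push Not at hc
          exact hb (Finset.sum_eq_zero hc)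
        obtain ⟨j', hj', hj2'⟩ : ∃ j ∈ K'ᶜ, keep (insert j K') ≠ z (insert j K') := by
          by_contra hc
          push Not at hc
          apply hb
          rw [← hz2 K']
          exact Finset.sum_congr rfl hc
        rw [Finset.mem_compl] at hj hj'
        have hz : z (insert j K') ≠ 0 := by
          rcases hkeep (insert j K') with h | h
          · rw [← h]; exact hj2
          · exact absurd h hj2
        have hp : σ (nd (insert j K')) ≠ Part.plus := by
          intro h
          apply hj2
          rw [hkd]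
          simp only [if_pos h]
        have hp' : σ (nd (insert j' K')) = Part.plus := by
          by_contra h
          apply hj2'
          rw [hkd]
          simp only [if_neg h]
        have hz' : z (insert j' K') ≠ 0 := by
          intro h
          apply hj2'
          rw [hkd]
          simp only [if_pos hp', h]
        have hcard := (hz1 _ hz).1
        rw [Finset.card_insert_of_notMem hj] at hcard
        have hiK' : i ∉ K' := Finset.notMem_erase _ _
        refine ⟨by rw [hKK', Finset.card_insert_of_notMem hiK']; exact hcard, ?_⟩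
        have hsub1 : K' ⊆ s.I (nd (insert j K')) :=
          (Finset.subset_insert _ _).trans (hnd _ hz)
        have hsub2 : K' ⊆ s.I (nd (insert j' K')) :=
          (Finset.subset_insert _ _).trans (hnd _ hz')
        rcases hpart : σ (nd (insert j K')) with _ | _ | _
        · -- a new node
          have hne : nd (insert j K') ≠ nd (insert j' K') := by
            intro h
            rw [h, hp'] at hpart
            exact absurd hpart (by simp)
          have hsub : K' ⊆ s.I (nd (insert j K')) ∩ s.I (nd (insert j' K')) :=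
            Finset.subset_inter hsub1 hsub2
          have hadj := hI.adj _ _ hne (by
            have := Finset.card_le_card hsub
            omega)
          refine ⟨Sum.inr ⟨(nd (insert j K'), nd (insert j' K')), hadj, hpart, hp'⟩, ?_⟩
          show K ⊆ insert i (s.I (nd (insert j K')) ∩ s.I (nd (insert j' K')))
          rw [hKK']
          exact Finset.insert_subset_insert _ hsub
        · refine ⟨Sum.inl ⟨nd (insert j K'), hp⟩, ?_⟩
          show K ⊆ if σ (nd (insert j K')) = Part.zero then insert i (s.I (nd (insert j K'))) else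
            s.I (nd (insert j K'))
          rw [if_pos hpart, hKK']
          exact Finset.insert_subset_insert _ hsub1
        · exact absurd hpart hp
      · -- an old simplex
        have hz : z K ≠ 0 := by
          rcases hkeep K with h | h
          · rw [← h]; exact hk0
          · exact absurd h hk0
        have hp : σ (nd K) ≠ Part.plus := by
          intro h
          apply hk0
          rw [hkd]
          simp only [if_pos h]
        refine ⟨(hz1 K hz).1, Sum.inl ⟨nd K, hp⟩, ?_⟩
        show K ⊆ if σ (nd K) = Part.zero then insert i (s.I (nd K)) else s.I (nd K)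
        split_ifs
        · exact (hnd K hz).trans (Finset.subset_insert _ _)
        · exact hnd K hz
    · intro h hg
      show ∑ K, (keep K + cone i (bd keep) K) * phi A h K = 1
      rw [hs2 (phi A h) ?_, hz3 h hg]
      intro L hL
      have hp : σ (nd L) = Part.plus := by
        by_contra hc
        apply hL
        rw [hkd]
        simp only [if_neg hc]
      have hz : z L ≠ 0 := by
        intro h
        apply hL
        rw [hkd]
        simp only [if_pos hp, h]
      have hiL : i ∉ L := fun h => hz (hzi L h)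
      refine (sum_phi (fun j => A j) h (insert i L)).trans ?_
      have hcard : (insert i L).card = d + 1 := by
        rw [Finset.card_insert_of_notMem hiL, (hz1 L hz).1]
      have heven : Even (Fc (fun j => A j) h (insert i L)).card :=
        even_Fc hg hcard (y := s.c (nd L)) (by
        intro l hl
        rw [Finset.mem_insert] at hl
        rcases hl with rfl | hl
        · have := hσ.plus _ hp
          have h2 : (A *ᵥ s.c (nd L)) l = A l ⬝ᵥ s.c (nd L) := rfl
          rw [h2] at this
          linarith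
        · have := (hI.tight _ l (hnd L hz hl)).2
          have h2 : (A *ᵥ s.c (nd L)) l = A l ⬝ᵥ s.c (nd L) := rfl
          rw [h2] at this
          linarith)
      obtain ⟨c, hc⟩ := heven
      rw [hc, Nat.cast_add]
      exact add_self2 _

theorem inv_reach {A : Matrix (Fin m) (Fin d) ℝ} {ε : ℝ} (hε : 0 ≤ ε) (hm : d + 1 ≤ m)
    (hS : IsSimplex (firstRows A)) {k : ℕ} {s : State m d} (hs : Reach A ε hm k s) :
    Inv A ε k s := by
  induction hs with
  | start p hp => exact inv_start hε hm hS hp
  | next i s _ σ hσ q hq ih => exact inv_next hε i s ih σ hσ q hq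

theorem exists_stepA {A : Matrix (Fin m) (Fin d) ℝ} {ε : ℝ} (hε : 0 ≤ ε) (i : Fin m)
    (s : State m d) (hI : Inv A ε i s) : ∃ σ, StepA A ε i s σ := by
  classical
  have hneg : ∃ v, (A *ᵥ s.c v) i < 1 := by
    by_contra hc
    push Not at hc
    have h0 : (0 : Fin d → ℝ) ∈ convexHull ℝ s.points := by
      apply hull_of_inv hI
      intro j _
      rw [mulVec_zero]
      exact zero_le_one
    have hconv : Convex ℝ {y : Fin d → ℝ | 1 ≤ (A *ᵥ y) i} := by
      intro x hx y hy a b ha hb hab
      show 1 ≤ (A *ᵥ (a • x + b • y)) i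
      rw [mulVec_add, mulVec_smul, mulVec_smul, Pi.add_apply, Pi.smul_apply, Pi.smul_apply,
        smul_eq_mul, smul_eq_mul]
      have h3 := mul_le_mul_of_nonneg_left (show 1 ≤ (A *ᵥ x) i from hx) ha
      have h4 := mul_le_mul_of_nonneg_left (show 1 ≤ (A *ᵥ y) i from hy) hb
      linarith
    have hsub : s.points ⊆ {y : Fin d → ℝ | 1 ≤ (A *ᵥ y) i} := by
      rintro _ ⟨v, rfl⟩
      exact hc v
    have h1 := convexHull_min hsub hconv h0
    have h2 : (1 : ℝ) ≤ (A *ᵥ (0 : Fin d → ℝ)) i := h1
    rw [mulVec_zero] at h2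
    exact absurd h2 (by norm_num)
  refine ⟨fun v => if (A *ᵥ s.c v) i < 1 + ε / 2 then Part.minus
    else if (A *ᵥ s.c v) i = 1 + ε / 2 then Part.zero else Part.plus, ?_, ?_, ?_, ?_⟩
  · obtain ⟨v, hv⟩ := hneg
    exact ⟨v, if_pos (by linarith)⟩
  · intro v hv
    by_contra hc
    simp only [if_neg hc] at hv
    split_ifs at hv
  · intro v hv
    by_cases h1 : (A *ᵥ s.c v) i < 1 + ε / 2
    · simp only [if_pos h1] at hv
      exact absurd hv (by simp)
    · by_cases h2 : (A *ᵥ s.c v) i = 1 + ε / 2
      · rw [h2]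
        constructor <;> linarith
      · simp only [if_neg h1, if_neg h2] at hv
        exact absurd hv (by simp)
  · intro v hv
    by_cases h1 : (A *ᵥ s.c v) i < 1 + ε / 2
    · simp only [if_pos h1] at hv
      exact absurd hv (by simp)
    · by_cases h2 : (A *ᵥ s.c v) i = 1 + ε / 2
      · simp only [if_neg h1, if_pos h2] at hv
        exact absurd hv (by simp)
      · exact lt_of_le_of_ne (not_lt.1 h1) (Ne.symm h2)

theorem exists_stepB {A : Matrix (Fin m) (Fin d) ℝ} {ε : ℝ} (hε : 0 ≤ ε) (i : Fin m)
    (s : State m d) (σ : s.Node → Part) (hσ : StepA A ε i s σ) : ∃ q, StepB A ε i s σ q := by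
  have key : ∀ e : Cross s σ, ∃ x : Fin d → ℝ, x ∈ segment ℝ (s.c e.1.1) (s.c e.1.2) ∧
      1 ≤ (A *ᵥ x) i ∧ (A *ᵥ x) i ≤ 1 + ε := by
    rintro ⟨⟨u, w⟩, _, hu, hw⟩
    have h1 := hσ.minus u hu
    have h2 := hσ.plus w hw
    set a := (A *ᵥ s.c u) i with ha
    set b := (A *ᵥ s.c w) i with hb
    have hab : 0 < b - a := by linarith
    set t := (1 + ε / 2 - a) / (b - a) with ht
    have ht0 : 0 ≤ t := div_nonneg (by linarith) hab.le
    have ht1 : t ≤ 1 := by rw [ht, div_le_one hab]; linarith
    have hval : (A *ᵥ ((1 - t) • s.c u + t • s.c w)) i = 1 + ε / 2 := by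
      rw [mulVec_add, mulVec_smul, mulVec_smul, Pi.add_apply, Pi.smul_apply, Pi.smul_apply,
        smul_eq_mul, smul_eq_mul, ← ha, ← hb]
      have : t * (b - a) = 1 + ε / 2 - a := by rw [ht, div_mul_cancel₀ _ hab.ne']
      linarith
    refine ⟨(1 - t) • s.c u + t • s.c w, ⟨1 - t, t, by linarith, ht0, by ring, rfl⟩, ?_, ?_⟩
    · rw [hval]; linarith
    · rw [hval]; linarith
  choose q hq using key
  exact ⟨q, hq⟩

/-- **The method is correct in every dimension.** -/
theorem correct (A : Matrix (Fin m) (Fin d) ℝ) (ε : ℝ) (hε : 0 ≤ ε) (hm : d + 1 ≤ m)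
    (hS : IsSimplex (firstRows A)) : Correct A ε hm where
  start := exists_start hε hm hS
  stepA := fun i s hs => exists_stepA hε i s (inv_reach hε hm hS hs)
  stepB := fun i s _ σ hσ => exists_stepB hε i s σ hσ
  lower := by
    intro s hs x hx
    refine hull_of_inv (inv_reach hε hm hS hs) fun j _ => ?_
    have := hx j
    linarith
  upper := by
    intro s hs
    have hI := inv_reach hε hm hS hs
    refine convexHull_min ?_ ?_
    · rintro _ ⟨v, rfl⟩ j
      exact hI.upper v j j.2
    · intro x hx y hy a b ha hb hab j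
      rw [mulVec_add, mulVec_smul, mulVec_smul, Pi.add_apply, Pi.smul_apply, Pi.smul_apply,
        smul_eq_mul, smul_eq_mul]
      have h3 := mul_le_mul_of_nonneg_left (hx j) ha
      have h4 := mul_le_mul_of_nonneg_left (hy j) hb
      have h5 : a * (1 + ε) + b * (1 + ε) = 1 + ε := by rw [← add_mul, hab, one_mul]
      linarith

end Pool.Agent.Q226.ADDM
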